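import Pool.Agent.Y136.PinDown.Main

set_option autoImplicit false

open Filter

namespace Pool.Agent.Results.MP_93ccfe_al.SequenceInCV

open Pool.Agent.H472R3

/-- For every `N ≥ 3` there are a free action `A` in the closure of `cv_N` and points `T 0, T 1, ...`
of `cv_N` with pairwise different length functions, all different from that of `A`, such that for
every `g` the length of `g` in `T n` equals the length in `A` for all large `n`. So for every finite
set `S` all but finitely many of the points `T n` have the same lengths on `S` as `A`, no finite set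
pins down `A`, and every set which pins down `A` separates `A` from each `T n`. -/
theorem result (N : ℕ) (hN : 3 ≤ N) : ∃ A : FTree N, A.InClosure ∧ A.Free ∧
    ∃ T : ℕ → FTree N, (∀ n, (T n).InCV) ∧ (∀ n, (T n).len ≠ A.len) ∧
      (∀ m n, m ≠ n → (T m).len ≠ (T n).len) ∧
      (∀ g, ∀ᶠ n in atTop, (T n).len g = A.len g) ∧
      (∀ S : Set (FreeGroup (Fin N)), S.Finite →
        (∀ᶠ n in atTop, ∀ g ∈ S, (T n).len g = A.len g) ∧ ¬ FTree.PinsDown S A) ∧
      ∀ S : Set (FreeGroup (Fin N)), FTree.PinsDown S A →
        ∀ n, ∃ g ∈ S, (T n).len g ≠ A.len g :=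
  Pool.Agent.Y136.PinDown.main_seq N hN

end Pool.Agent.Results.MP_93ccfe_al.SequenceInCV
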